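import Pool.Agent.helper95.FJ.SpecD

/-!
# Row fj:WFN (MP_ad8ced_nt)

The final estimate for the sum of the squares in the narrow sector.
-/

set_option autoImplicit false

open Finset

noncomputable section

namespace Pool.Agent.FJ

open Pool.Agent.FI

private theorem WFN_div {L : ℝ} (hL : 1 ≤ L) {B a b : ℕ} (h : a + (B + 1) ≤ b) :
    L ^ a / L ^ b ≤ 1 / L ^ (B + 1) := by
  have h0 : 0 < L := by linarith
  rw [div_le_div_iff₀ (by positivity) (by positivity), one_mul, ← pow_add]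
  exact pow_le_pow_right₀ hL h

private theorem WFN_V4 (x η : ℝ) (hx : 1 ≤ x) : (x ^ (η / 4)) ^ 4 = x ^ η := by
  rw [← Real.rpow_natCast, ← Real.rpow_mul (by linarith)]
  congr 1
  push_cast
  ring

private theorem WFN_V2 (x η : ℝ) (hx : 1 ≤ x) : (x ^ (η / 4)) ^ 2 = x ^ (η / 2) := by
  rw [← Real.rpow_natCast, ← Real.rpow_mul (by linarith)]
  congr 1
  push_cast
  ring

private theorem WFN_c (x A η : ℝ) (hx : 1 ≤ x) (hA : x ^ (2 / 3 + η) ≤ A) : x ^ 2 * (x ^ η) ^ 3 ≤ A ^ 3 := by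
  have hx0 : 0 < x := by linarith
  have h1 : (x ^ (2 / 3 + η)) ^ 3 = x ^ 2 * (x ^ η) ^ 3 := by
    rw [← Real.rpow_natCast, ← Real.rpow_mul hx0.le, ← Real.rpow_natCast x 2, ← Real.rpow_natCast (x ^ η) 3,
      ← Real.rpow_mul hx0.le, ← Real.rpow_add hx0]
    congr 1
    push_cast
    ring
  rw [← h1]
  exact pow_le_pow_left₀ (Real.rpow_nonneg hx0.le _) hA 3

private theorem WFN_d (x A K c η : ℝ) (hx : 1 ≤ x) (hK : 0 ≤ K) (hA : x ^ (2 / 3 + η) ≤ A) (hKA : K * A ^ 2 ≤ c * x ^ 2)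
    (hc : c ≤ x ^ η) : K ≤ x ^ (2 / 3 - η) := by
  have hx0 : 0 < x := by linarith
  have h1 : (x ^ (2 / 3 + η)) ^ 2 = x ^ (4 / 3 + 2 * η) := by
    rw [← Real.rpow_natCast, ← Real.rpow_mul hx0.le]
    congr 1
    push_cast
    ring
  have h2 : x ^ (4 / 3 + 2 * η) ≤ A ^ 2 := by
    rw [← h1]
    exact pow_le_pow_left₀ (Real.rpow_nonneg hx0.le _) hA 2
  have h3 : K * x ^ (4 / 3 + 2 * η) ≤ x ^ η * x ^ 2 := by
    calc K * x ^ (4 / 3 + 2 * η) ≤ K * A ^ 2 := mul_le_mul_of_nonneg_left h2 hK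
      _ ≤ c * x ^ 2 := hKA
      _ ≤ x ^ η * x ^ 2 := mul_le_mul_of_nonneg_right hc (by positivity)
  have h4 : x ^ η * x ^ 2 = x ^ (2 / 3 - η) * x ^ (4 / 3 + 2 * η) := by
    rw [← Real.rpow_natCast x 2, ← Real.rpow_add hx0, ← Real.rpow_add hx0]
    congr 1
    push_cast
    ring
  rw [h4] at h3
  exact le_of_mul_le_mul_right h3 (Real.rpow_pos_of_pos hx0 _)

/-- the first group of terms -/
private theorem WFN_p1 (N A x s L P V K₁ K₃ Z LE : ℝ) (hN : 0 < N) (hA : 0 < A) (hx : 0 < x) (hL : 1 ≤ L) (hP : 0 < P)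
    (hV : 0 < V) (hLE : 0 < LE) (hs1 : 1 ≤ s) (hss : s * s = N) (ha : x * V ≤ A * s) (hb : s * V ≤ A)
    (hK₁ : P ≤ K₁) (hK₃ : P ≤ K₃) (hZ : LE ≤ Z) :
    N * A ^ 2 / K₁ + x * A + (1 + L) * (N * A ^ 2 / Z + x * A * s + N * s * A) + N * A * (A / K₃ + s) ≤
      (N * A ^ 2) * (2 / P + 2 / V + 2 * L * (1 / LE + 2 / V)) := by
  have hT : 0 < N * A ^ 2 := by positivity
  have hs0 : 0 < s := by linarith
  have p1 : N * A ^ 2 / K₁ ≤ N * A ^ 2 / P := div_le_div_of_nonneg_left hT.le hP hK₁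
  have p1' : N * A ^ 2 / K₃ ≤ N * A ^ 2 / P := div_le_div_of_nonneg_left hT.le hP hK₃
  have p3 : N * A ^ 2 / Z ≤ N * A ^ 2 / LE := div_le_div_of_nonneg_left hT.le hLE hZ
  have p2 : x * A * s ≤ N * A ^ 2 / V := by
    rw [le_div_iff₀ hV]
    calc x * A * s * V = (x * V) * (A * s) := by ring
      _ ≤ (A * s) * (A * s) := mul_le_mul_of_nonneg_right ha (by positivity)
      _ = N * A ^ 2 := by rw [← hss]; ring
  have p2' : x * A ≤ N * A ^ 2 / V := by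
    refine le_trans ?_ p2
    exact le_mul_of_one_le_right (by positivity) hs1
  have p5 : N * s * A ≤ N * A ^ 2 / V := by
    rw [le_div_iff₀ hV]
    calc N * s * A * V = N * A * (s * V) := by ring
      _ ≤ N * A * A := mul_le_mul_of_nonneg_left hb (by positivity)
      _ = N * A ^ 2 := by ring
  have p6 : N * A * (A / K₃ + s) = N * A ^ 2 / K₃ + N * s * A := by ring
  have p7 : (1 + L) * (N * A ^ 2 / Z + x * A * s + N * s * A) ≤ (2 * L) * (N * A ^ 2 / LE + N * A ^ 2 / V + N * A ^ 2 / V) := by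
    refine mul_le_mul (by linarith) (by linarith) ?_ (by linarith)
    have hZ0 : 0 < Z := by linarith
    positivity
  rw [p6]
  have p8 : (N * A ^ 2) * (2 / P + 2 / V + 2 * L * (1 / LE + 2 / V)) = N * A ^ 2 / P + N * A ^ 2 / V +
      (2 * L) * (N * A ^ 2 / LE + N * A ^ 2 / V + N * A ^ 2 / V) + (N * A ^ 2 / P + N * A ^ 2 / V) := by ring
  rw [p8]
  linarith

/-- the small conductors -/
private theorem WFN_p2 (N A x L P V K R₀ R₁ lD LE LE₀ C C' : ℝ) (hN : 0 < N) (hA : 0 < A) (hx : 0 < x) (hL : 1 ≤ L) (hP : 1 ≤ P)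
    (hV : 1 ≤ V) (hLE : 0 < LE) (hLE₀ : 0 < LE₀) (hK : 0 < K) (hC : 0 < C) (hC' : 0 < C') (hK1 : x ^ 2 ≤ K * A ^ 2)
    (hK2 : K * A ^ 2 ≤ 644 * P ^ 2 * x ^ 2) (hR₀a : LE₀ ≤ R₀) (hR₀b : R₀ ≤ 2 * LE₀) (hR₁0 : 0 ≤ R₁) (hR₁ : R₁ ≤ 2 * (x * V ^ 2 / A))
    (hlD : lD ≤ 4 * L) (hlD0 : 0 ≤ lD) (hc : x ^ 2 * V ^ 12 ≤ A ^ 3) :
    C * (1 + A ^ 2 * K / x ^ 2) * N * (C' * lD * (R₀ * (x ^ 2 / (K * LE)) + (x / (K * R₀) + R₁) * (x * (2 * L) ^ 2))) ≤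
      C * C' * (N * A ^ 2) * (2580 * P ^ 2 * L) * (2 * LE₀ / LE + 4 * L ^ 2 / LE₀ + 8 * L ^ 2 / V) := by
  have hR₀ : 0 < R₀ := by linarith
  have hP0 : 0 < P := by linarith
  have hV0 : 0 < V := by linarith
  have hL0 : 0 < L := by linarith
  have hxK : x ^ 2 / K ≤ A ^ 2 := by
    rw [div_le_iff₀ hK]
    linarith
  have h1 : 1 + A ^ 2 * K / x ^ 2 ≤ 645 * P ^ 2 := by
    have h2 : A ^ 2 * K / x ^ 2 ≤ 644 * P ^ 2 := by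
      rw [div_le_iff₀ (by positivity)]
      linarith
    have h3 : 1 ≤ P ^ 2 := one_le_pow₀ hP
    linarith
  have h2 : R₀ * (x ^ 2 / (K * LE)) ≤ A ^ 2 * (2 * LE₀ / LE) := by
    have e : R₀ * (x ^ 2 / (K * LE)) = (x ^ 2 / K) * (R₀ / LE) := by
      field_simp
    rw [e]
    exact mul_le_mul hxK (div_le_div_of_nonneg_right hR₀b hLE.le) (by positivity) (by positivity)
  have h3 : x / (K * R₀) * (x * (2 * L) ^ 2) ≤ A ^ 2 * (4 * L ^ 2 / LE₀) := by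
    have e : x / (K * R₀) * (x * (2 * L) ^ 2) = (x ^ 2 / K) * (4 * L ^ 2 / R₀) := by
      field_simp
      ring
    rw [e]
    exact mul_le_mul hxK (div_le_div_of_nonneg_left (by positivity) hLE₀ hR₀a) (by positivity) (by positivity)
  have h4 : R₁ * (x * (2 * L) ^ 2) ≤ A ^ 2 * (8 * L ^ 2 / V) := by
    have h5 : x ^ 2 * V ^ 2 / A ≤ A ^ 2 / V := by
      rw [div_le_div_iff₀ hA hV0]
      calc x ^ 2 * V ^ 2 * V = x ^ 2 * V ^ 3 := by ring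
        _ ≤ x ^ 2 * V ^ 12 := mul_le_mul_of_nonneg_left (pow_le_pow_right₀ hV (by norm_num)) (by positivity)
        _ ≤ A ^ 3 := hc
        _ = A ^ 2 * A := by ring
    calc R₁ * (x * (2 * L) ^ 2) ≤ 2 * (x * V ^ 2 / A) * (x * (2 * L) ^ 2) := mul_le_mul_of_nonneg_right hR₁ (by positivity)
      _ = 8 * L ^ 2 * (x ^ 2 * V ^ 2 / A) := by ring
      _ ≤ 8 * L ^ 2 * (A ^ 2 / V) := mul_le_mul_of_nonneg_left h5 (by positivity)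
      _ = A ^ 2 * (8 * L ^ 2 / V) := by ring
  have h5 : R₀ * (x ^ 2 / (K * LE)) + (x / (K * R₀) + R₁) * (x * (2 * L) ^ 2) ≤
      A ^ 2 * (2 * LE₀ / LE + 4 * L ^ 2 / LE₀ + 8 * L ^ 2 / V) := by
    have e : R₀ * (x ^ 2 / (K * LE)) + (x / (K * R₀) + R₁) * (x * (2 * L) ^ 2) =
        R₀ * (x ^ 2 / (K * LE)) + x / (K * R₀) * (x * (2 * L) ^ 2) + R₁ * (x * (2 * L) ^ 2) := by ring
    rw [e]
    have e' : A ^ 2 * (2 * LE₀ / LE + 4 * L ^ 2 / LE₀ + 8 * L ^ 2 / V) =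
        A ^ 2 * (2 * LE₀ / LE) + A ^ 2 * (4 * L ^ 2 / LE₀) + A ^ 2 * (8 * L ^ 2 / V) := by ring
    rw [e']
    linarith
  have h6 : 0 ≤ R₀ * (x ^ 2 / (K * LE)) + (x / (K * R₀) + R₁) * (x * (2 * L) ^ 2) := by positivity
  calc C * (1 + A ^ 2 * K / x ^ 2) * N * (C' * lD * (R₀ * (x ^ 2 / (K * LE)) + (x / (K * R₀) + R₁) * (x * (2 * L) ^ 2)))
      ≤ C * (645 * P ^ 2) * N * (C' * (4 * L) * (A ^ 2 * (2 * LE₀ / LE + 4 * L ^ 2 / LE₀ + 8 * L ^ 2 / V))) := by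
        refine mul_le_mul ?_ ?_ ?_ ?_
        · exact mul_le_mul_of_nonneg_right (mul_le_mul_of_nonneg_left h1 hC.le) hN.le
        · exact mul_le_mul (mul_le_mul_of_nonneg_left hlD hC'.le) h5 h6 (by positivity)
        · positivity
        · positivity
    _ = _ := by ring

/-- the large conductors -/
private theorem WFN_p3 (N A x L P V K K₃ R₁ lD D₁ C : ℝ) (hN : 0 < N) (hA : 0 < A) (hx : 0 < x) (hL : 1 ≤ L) (hP : 1 ≤ P)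
    (hV : 1 ≤ V) (hK : 0 < K) (hK₃0 : 0 < K₃) (hC : 0 < C) (hK1 : x ^ 2 ≤ K * A ^ 2)
    (hK2 : K * A ^ 2 ≤ 644 * P ^ 2 * x ^ 2) (hK₃ : K₃ ≤ 2 * P) (hR₁ : x * V ^ 2 / A ≤ R₁)
    (hlD : lD ≤ 4 * L) (hlD0 : 0 ≤ lD) (hNA : x ≤ N * A) (hD : D₁ ≤ 2 * N * A / x) (hD0 : 0 ≤ D₁) (hNV : N * V ^ 2 ≤ A ^ 2) :
    √(N * (N * A / x + 1) * (1 + A ^ 2 * K / x ^ 2)) *
      √(K₃ * (C * K₃ * lD * (x ^ 2 / (K * R₁) + D₁) * ((2 * L) ^ 4 * (x ^ 2 * (1 + L) ^ 3)))) ≤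
      2816 * (1 + C) * (P ^ 2 * L ^ 4 * (N * A ^ 2) / V) := by
  have hP0 : 0 < P := by linarith
  have hV0 : 0 < V := by linarith
  have hL0 : 0 < L := by linarith
  have hR₁0 : 0 < R₁ := lt_of_lt_of_le (by positivity) hR₁
  have hxK : x ^ 2 / K ≤ A ^ 2 := by
    rw [div_le_iff₀ hK]
    linarith
  have h1 : 1 + A ^ 2 * K / x ^ 2 ≤ 645 * P ^ 2 := by
    have h2 : A ^ 2 * K / x ^ 2 ≤ 644 * P ^ 2 := by
      rw [div_le_iff₀ (by positivity)]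
      linarith
    have h3 : 1 ≤ P ^ 2 := one_le_pow₀ hP
    linarith
  have h2 : N * A / x + 1 ≤ 2 * (N * A / x) := by
    have : 1 ≤ N * A / x := by
      rw [le_div_iff₀ hx]
      linarith
    linarith
  have hr1 : N * (N * A / x + 1) * (1 + A ^ 2 * K / x ^ 2) ≤ 1290 * P ^ 2 * (N ^ 2 * A / x) := by
    calc N * (N * A / x + 1) * (1 + A ^ 2 * K / x ^ 2) ≤ N * (2 * (N * A / x)) * (645 * P ^ 2) :=
          mul_le_mul (mul_le_mul_of_nonneg_left h2 hN.le) h1 (by positivity) (by positivity)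
      _ = _ := by ring
  have h3 : x ^ 2 / (K * R₁) ≤ A ^ 3 / (x * V ^ 2) := by
    have e : x ^ 2 / (K * R₁) = (x ^ 2 / K) * (1 / R₁) := by
      field_simp
    have e2 : A ^ 3 / (x * V ^ 2) = A ^ 2 * (1 / (x * V ^ 2 / A)) := by
      field_simp
    rw [e, e2]
    refine mul_le_mul hxK (one_div_le_one_div_of_le (by positivity) hR₁) (by positivity) (by positivity)
  have h4 : (1 + L) ^ 3 ≤ (2 * L) ^ 3 := pow_le_pow_left₀ (by linarith) (by linarith) 3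
  have h5 : K₃ * K₃ ≤ (2 * P) * (2 * P) := mul_le_mul hK₃ hK₃ hK₃0.le (by positivity)
  have hr2 : K₃ * (C * K₃ * lD * (x ^ 2 / (K * R₁) + D₁) * ((2 * L) ^ 4 * (x ^ 2 * (1 + L) ^ 3))) ≤
      2048 * C * P ^ 2 * L ^ 8 * x ^ 2 * (A ^ 3 / (x * V ^ 2) + 2 * N * A / x) := by
    calc K₃ * (C * K₃ * lD * (x ^ 2 / (K * R₁) + D₁) * ((2 * L) ^ 4 * (x ^ 2 * (1 + L) ^ 3)))
        = C * (K₃ * K₃) * lD * (x ^ 2 / (K * R₁) + D₁) * ((2 * L) ^ 4 * (x ^ 2 * (1 + L) ^ 3)) := by ring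
      _ ≤ C * ((2 * P) * (2 * P)) * (4 * L) * (A ^ 3 / (x * V ^ 2) + 2 * N * A / x) * ((2 * L) ^ 4 * (x ^ 2 * (2 * L) ^ 3)) := by
          refine mul_le_mul ?_ ?_ (by positivity) (by positivity)
          · refine mul_le_mul ?_ (by linarith) (by positivity) (by positivity)
            exact mul_le_mul (mul_le_mul_of_nonneg_left h5 hC.le) hlD hlD0 (by positivity)
          · refine mul_le_mul_of_nonneg_left ?_ (by positivity)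
            exact mul_le_mul_of_nonneg_left h4 (by positivity)
      _ = _ := by ring
  have hr1n : 0 ≤ N * (N * A / x + 1) * (1 + A ^ 2 * K / x ^ 2) := by positivity
  rw [← Real.sqrt_mul hr1n]
  refine Real.sqrt_le_iff.2 ⟨by positivity, ?_⟩
  have hr2n : 0 ≤ K₃ * (C * K₃ * lD * (x ^ 2 / (K * R₁) + D₁) * ((2 * L) ^ 4 * (x ^ 2 * (1 + L) ^ 3))) := by positivity
  refine (mul_le_mul hr1 hr2 hr2n (by positivity)).trans ?_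
  have e : 1290 * P ^ 2 * (N ^ 2 * A / x) * (2048 * C * P ^ 2 * L ^ 8 * x ^ 2 * (A ^ 3 / (x * V ^ 2) + 2 * N * A / x)) =
      2641920 * C * (P ^ 4 * L ^ 8) * (N ^ 2 * A ^ 4 / V ^ 2 + 2 * N ^ 3 * A ^ 2) := by
    field_simp
    ring
  rw [e]
  have h6 : N ^ 3 * A ^ 2 ≤ N ^ 2 * A ^ 4 / V ^ 2 := by
    rw [le_div_iff₀ (by positivity)]
    calc N ^ 3 * A ^ 2 * V ^ 2 = N ^ 2 * A ^ 2 * (N * V ^ 2) := by ring
      _ ≤ N ^ 2 * A ^ 2 * A ^ 2 := mul_le_mul_of_nonneg_left hNV (by positivity)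
      _ = N ^ 2 * A ^ 4 := by ring
  have h7 : N ^ 2 * A ^ 4 / V ^ 2 + 2 * N ^ 3 * A ^ 2 ≤ 3 * (N ^ 2 * A ^ 4 / V ^ 2) := by linarith
  calc 2641920 * C * (P ^ 4 * L ^ 8) * (N ^ 2 * A ^ 4 / V ^ 2 + 2 * N ^ 3 * A ^ 2)
      ≤ 2641920 * C * (P ^ 4 * L ^ 8) * (3 * (N ^ 2 * A ^ 4 / V ^ 2)) := mul_le_mul_of_nonneg_left h7 (by positivity)
    _ = 7925760 * C * (P ^ 2 * L ^ 4 * (N * A ^ 2) / V) ^ 2 := by
        field_simp
        ring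
    _ ≤ (2816 * (1 + C)) ^ 2 * (P ^ 2 * L ^ 4 * (N * A ^ 2) / V) ^ 2 := by
        refine mul_le_mul_of_nonneg_right ?_ (by positivity)
        nlinarith [sq_nonneg C]
    _ = _ := by ring

/-- the final sum -/
private theorem WFN_end (L P V T LE LE₀ C₁ C₂ C₃ C₄ C₅ q : ℝ) (B b₁ E₀ E G : ℕ) (hb₁ : b₁ = B + 20) (hE₀ : E₀ = 6 * b₁ + 60)
    (hE : E = 3 * E₀) (hG : G = 2 * b₁ + B + 10) (hL : 1 ≤ L) (hP : P = L ^ b₁) (hLE : LE = L ^ E) (hLE₀ : LE₀ = L ^ E₀)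
    (hV : L ^ G ≤ V) (hT : 0 < T) (hC₁ : 0 < C₁) (hC₂ : 0 < C₂) (hC₃ : 0 < C₃) (hC₄ : 0 < C₄) (hC₅ : 0 < C₅)
    (hq : q = 1 / L ^ (B + 1)) :
    C₁ * (3 * L) ^ 2 * ((2 * L) ^ 2 * (T * (2 / P + 2 / V + 2 * L * (1 / LE + 2 / V))) +
      (C₂ * C₄ * T * (2580 * P ^ 2 * L) * (2 * LE₀ / LE + 4 * L ^ 2 / LE₀ + 8 * L ^ 2 / V) +
        C₃ * (2816 * (1 + C₅) * (P ^ 2 * L ^ 4 * T / V)))) ≤
      C₁ * (360 + 325080 * C₂ * C₄ + 25344 * C₃ * (1 + C₅)) * q * T := by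
  have hL0 : 0 < L := by linarith
  have hV0 : 0 < V := lt_of_lt_of_le (by positivity) hV
  have hVd : ∀ a : ℕ, a + (B + 1) ≤ G → L ^ a / V ≤ q := by
    intro a ha
    rw [hq]
    exact (div_le_div_of_nonneg_left (by positivity) (by positivity) hV).trans (WFN_div hL ha)
  have f1 : L ^ 4 / P ≤ q := by rw [hP, hq]; exact WFN_div hL (by omega)
  have f2 : L ^ 4 / V ≤ q := hVd 4 (by omega)
  have f3 : L ^ 5 / LE ≤ q := by rw [hLE, hq]; exact WFN_div hL (by omega)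
  have f4 : L ^ 5 / V ≤ q := hVd 5 (by omega)
  have f5 : P ^ 2 * L ^ 3 * LE₀ / LE ≤ q := by
    have e : P ^ 2 * L ^ 3 * LE₀ = L ^ (b₁ * 2 + 3 + E₀) := by rw [hP, hLE₀, pow_add, pow_add, pow_mul]
    rw [e, hLE, hq]
    exact WFN_div hL (by omega)
  have f6 : P ^ 2 * L ^ 5 / LE₀ ≤ q := by
    have e : P ^ 2 * L ^ 5 = L ^ (b₁ * 2 + 5) := by rw [hP, pow_add, pow_mul]
    rw [e, hLE₀, hq]
    exact WFN_div hL (by omega)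
  have f7 : P ^ 2 * L ^ 5 / V ≤ q := by
    have e : P ^ 2 * L ^ 5 = L ^ (b₁ * 2 + 5) := by rw [hP, pow_add, pow_mul]
    rw [e]
    exact hVd _ (by omega)
  have f8 : P ^ 2 * L ^ 6 / V ≤ q := by
    have e : P ^ 2 * L ^ 6 = L ^ (b₁ * 2 + 6) := by rw [hP, pow_add, pow_mul]
    rw [e]
    exact hVd _ (by omega)
  have e : C₁ * (3 * L) ^ 2 * ((2 * L) ^ 2 * (T * (2 / P + 2 / V + 2 * L * (1 / LE + 2 / V))) +
      (C₂ * C₄ * T * (2580 * P ^ 2 * L) * (2 * LE₀ / LE + 4 * L ^ 2 / LE₀ + 8 * L ^ 2 / V) +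
        C₃ * (2816 * (1 + C₅) * (P ^ 2 * L ^ 4 * T / V)))) =
      C₁ * T * (72 * (L ^ 4 / P) + 72 * (L ^ 4 / V) + 72 * (L ^ 5 / LE) + 144 * (L ^ 5 / V) +
        C₂ * C₄ * (46440 * (P ^ 2 * L ^ 3 * LE₀ / LE) + 92880 * (P ^ 2 * L ^ 5 / LE₀) + 185760 * (P ^ 2 * L ^ 5 / V)) +
        25344 * C₃ * (1 + C₅) * (P ^ 2 * L ^ 6 / V)) := by ring
  rw [e]
  have h1 : C₂ * C₄ * (46440 * (P ^ 2 * L ^ 3 * LE₀ / LE) + 92880 * (P ^ 2 * L ^ 5 / LE₀) + 185760 * (P ^ 2 * L ^ 5 / V)) ≤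
      C₂ * C₄ * (325080 * q) := mul_le_mul_of_nonneg_left (by linarith) (by positivity)
  have h2 : 25344 * C₃ * (1 + C₅) * (P ^ 2 * L ^ 6 / V) ≤ 25344 * C₃ * (1 + C₅) * q :=
    mul_le_mul_of_nonneg_left f8 (by positivity)
  calc C₁ * T * (72 * (L ^ 4 / P) + 72 * (L ^ 4 / V) + 72 * (L ^ 5 / LE) + 144 * (L ^ 5 / V) +
        C₂ * C₄ * (46440 * (P ^ 2 * L ^ 3 * LE₀ / LE) + 92880 * (P ^ 2 * L ^ 5 / LE₀) + 185760 * (P ^ 2 * L ^ 5 / V)) +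
        25344 * C₃ * (1 + C₅) * (P ^ 2 * L ^ 6 / V))
      ≤ C₁ * T * (360 * q + C₂ * C₄ * (325080 * q) + 25344 * C₃ * (1 + C₅) * q) :=
        mul_le_mul_of_nonneg_left (by linarith) (by positivity)
    _ = _ := by ring

private theorem WFN_ZD (N : ℕ) (z : ℤ × ℤ) (hz : z ∈ ZD N) : z.1 % 2 = 1 ∧ IsCoprime z.1 z.2 := by
  unfold ZD at hz
  rw [Finset.mem_filter] at hz
  refine ⟨?_, hz.2.2⟩
  have h := hz.1
  simp only [FF, Finset.mem_filter] at h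
  exact h.2.1.1

private theorem WFN_cop (om : ℕ → ℤ × ℤ → ℤ × ℤ → ℤ) (hom : OmOK om) (x N A K₁ : ℕ) (p : (ℤ × ℤ) × (ℤ × ℤ)) (hp : p ∈ Pr x N A K₁)
    (e : ℕ) (he : e = 1 ∨ e = 2) : 1 ≤ e * (dl p.1 p.2).natAbs ∧
      IsCoprime (om e p.1 p.2) ((e * (dl p.1 p.2).natAbs : ℕ) : ℤ) := by
  unfold Pr at hp
  rw [Finset.mem_filter, Finset.mem_product] at hp
  obtain ⟨⟨h1, h2⟩, h3, h4⟩ := hp
  have hne : dl p.1 p.2 ≠ 0 := by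
    intro h
    rw [h] at h3
    simp at h3
  obtain ⟨a1, a2⟩ := WFN_ZD N _ h1
  obtain ⟨b1, b2⟩ := WFN_ZD N _ h2
  have h := (hom e he p.1 p.2 a1 b1 a2 b2 hne).1
  refine ⟨?_, ?_⟩
  · have h5 : 0 < (dl p.1 p.2).natAbs := Int.natAbs_pos.mpr hne
    have h6 : 0 < e := by omega
    exact Nat.mul_pos h6 h5
  · push_cast
    rcases Int.natAbs_eq (dl p.1 p.2) with h5 | h5
    · have h6 : |dl p.1 p.2| = dl p.1 p.2 := by
        rw [Int.abs_eq_natAbs, ← h5]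
      rw [h6]
      exact h
    · have h6 : |dl p.1 p.2| = - dl p.1 p.2 := by
        rw [Int.abs_eq_natAbs]
        omega
      rw [h6, mul_neg]
      exact h.neg_right

theorem WFN (hLAT : LAT_stmt) (hWBN : WBN_stmt) (hCHX : CHX_stmt) (hGPS : GPS_stmt) (hGPL : GPL_stmt) (hLSM : LSM_stmt) (hLSQ : LSQ_stmt) : WFN_stmt := by
  classical
  obtain ⟨om, hom⟩ := hLAT
  obtain ⟨C₁, hC₁, hW⟩ := hWBN
  obtain ⟨C₂, hC₂, hS⟩ := hGPS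
  obtain ⟨C₃, hC₃, hG⟩ := hGPL
  obtain ⟨C₄, hC₄, hM⟩ := hLSM
  obtain ⟨C₅, hC₅, hQ5⟩ := hLSQ
  intro η hη B
  obtain ⟨b₁, hb₁⟩ : ∃ n : ℕ, n = B + 20 := ⟨_, rfl⟩
  obtain ⟨E₀, hE₀⟩ : ∃ n : ℕ, n = 6 * b₁ + 60 := ⟨_, rfl⟩
  obtain ⟨E, hE⟩ : ∃ n : ℕ, n = 3 * E₀ := ⟨_, rfl⟩
  obtain ⟨G, hG'⟩ : ∃ n : ℕ, n = 2 * b₁ + B + 10 := ⟨_, rfl⟩
  set Q : ℝ := C₁ * (360 + 325080 * C₂ * C₄ + 25344 * C₃ * (1 + C₅)) with hQ
  have htend : Filter.Tendsto (fun x : ℕ => Real.log (x : ℝ)) Filter.atTop Filter.atTop :=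
    Real.tendsto_log_atTop.comp tendsto_natCast_atTop_atTop
  have hlit : ∀ᶠ x : ℕ in Filter.atTop, Real.log (x : ℝ) ^ G ≤ (x : ℝ) ^ (η / 4) := by
    have h1 : (fun x : ℝ => Real.log x ^ G) =o[Filter.atTop] fun x : ℝ => x ^ (η / 4) := by
      have h3 := isLittleO_log_rpow_rpow_atTop (G : ℝ) (show (0 : ℝ) < η / 4 by linarith)
      have h4 : (fun x : ℝ => Real.log x ^ (G : ℝ)) = fun x : ℝ => Real.log x ^ G := by
        funext x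
        exact Real.rpow_natCast _ _
      rw [h4] at h3
      exact h3
    have h2 := h1.bound (show (0 : ℝ) < 1 by norm_num)
    have h3 : ∀ᶠ x : ℕ in Filter.atTop, ‖Real.log (x : ℝ) ^ G‖ ≤ 1 * ‖(x : ℝ) ^ (η / 4)‖ :=
      tendsto_natCast_atTop_atTop.eventually h2
    filter_upwards [h3, htend.eventually_ge_atTop 1] with x hx hx1
    rw [Real.norm_of_nonneg (by positivity), Real.norm_of_nonneg (by positivity)] at hx
    linarith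
  obtain ⟨x₀, hx₀⟩ := Filter.eventually_atTop.1 ((htend.eventually_ge_atTop (max Q 2)).and
    (hlit.and (Filter.eventually_ge_atTop 2)))
  refine ⟨E, x₀, fun x hx Z lam hZ hlam hSI A N R hA1 hAx hN1 hN2 hR1 hR2 β hβ => ?_⟩
  obtain ⟨hLm, hLG, hx2⟩ := hx₀ x hx
  set L : ℝ := Real.log x with hL
  have hLQ : Q ≤ L := (le_max_left _ _).trans hLm
  have hL2 : 2 ≤ L := (le_max_right _ _).trans hLm
  have hL1 : 1 ≤ L := by linarith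
  have hL0 : 0 < L := by linarith
  have hx1 : 1 ≤ x := by omega
  have hx0 : (0 : ℝ) < x := by exact_mod_cast hx1
  have hxr1 : (1 : ℝ) ≤ x := by exact_mod_cast hx1
  have hpow : ∀ a b : ℕ, a ≤ b → L ^ a ≤ L ^ b := fun a b h => pow_le_pow_right₀ hL1 h
  have hp1 : ∀ a : ℕ, 1 ≤ L ^ a := fun a => one_le_pow₀ hL1
  obtain ⟨V, hVdef⟩ : ∃ V : ℝ, V = (x : ℝ) ^ (η / 4) := ⟨_, rfl⟩
  rw [← hVdef] at hLG
  have hV4 : V ^ 4 = (x : ℝ) ^ η := by rw [hVdef]; exact WFN_V4 x η hxr1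
  have hV1 : 1 ≤ V := (hp1 G).trans hLG
  have hV0 : 0 < V := by linarith
  have hVV2 : V ≤ V ^ 2 := by
    rw [pow_two]
    exact le_mul_of_one_le_left hV0.le hV1
  have hV24 : V ^ 2 ≤ V ^ 4 := pow_le_pow_right₀ hV1 (by norm_num)
  have hV14 : V ≤ V ^ 4 := hVV2.trans hV24
  rw [← hV4] at hN1 hN2
  have hAr : (0 : ℝ) < A := lt_of_lt_of_le (Real.rpow_pos_of_pos hx0 _) hA1
  have hA0 : 1 ≤ A := by
    have : 0 < A := by exact_mod_cast hAr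
    omega
  have hAxr : (A : ℝ) ≤ x := by exact_mod_cast hAx
  have hNr : (0 : ℝ) < N := by
    by_contra hc
    have h0 : (N : ℝ) = 0 := le_antisymm (not_lt.mp hc) (Nat.cast_nonneg _)
    rw [h0, mul_zero] at hN1
    have : 0 < (x : ℝ) ^ 2 * V ^ 4 := by positivity
    linarith
  have hN : 1 ≤ N := by
    have : 0 < N := by exact_mod_cast hNr
    omega
  have hNr1 : (1 : ℝ) ≤ N := by exact_mod_cast hN
  have hR : 1 ≤ R := by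
    by_contra hc
    have h0 : R = 0 := by omega
    rw [h0] at hR1
    have : 0 < x ^ 2 := by positivity
    simp at hR1
    omega
  -- the square root of N
  obtain ⟨s, hs⟩ : ∃ s : ℝ, s = √(N : ℝ) := ⟨_, rfl⟩
  have hs0 : 0 < s := by rw [hs]; exact Real.sqrt_pos.2 hNr
  have hss : s * s = N := by rw [hs]; exact Real.mul_self_sqrt hNr.le
  have hs1 : 1 ≤ s := by
    rw [hs]
    exact Real.one_le_sqrt.mpr hNr1
  have hsA : (x : ℝ) * V ^ 2 ≤ A * s := by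
    have h1 : ((x : ℝ) * V ^ 2) ^ 2 ≤ (A * s) ^ 2 := by
      calc ((x : ℝ) * V ^ 2) ^ 2 = (x : ℝ) ^ 2 * V ^ 4 := by ring
        _ ≤ (A : ℝ) ^ 2 * N := hN1
        _ = (A * s) ^ 2 := by rw [← hss]; ring
    exact le_of_sq_le_sq h1 (by positivity)
  have hsV : s * V ^ 2 ≤ A := by
    have h1 : (s * V ^ 2) ^ 2 ≤ (A : ℝ) ^ 2 := by
      calc (s * V ^ 2) ^ 2 = (s * s) * V ^ 4 := by ring
        _ = N * V ^ 4 := by rw [hss]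
        _ ≤ (A : ℝ) ^ 2 := hN2
    exact le_of_sq_le_sq h1 hAr.le
  have ha : (x : ℝ) * V ≤ A * s := (mul_le_mul_of_nonneg_left hVV2 hx0.le).trans hsA
  have hb : s * V ≤ A := (mul_le_mul_of_nonneg_left hVV2 hs0.le).trans hsV
  have hNA : (x : ℝ) ≤ N * A := by
    calc (x : ℝ) = x * 1 := (mul_one _).symm
      _ ≤ x * V := mul_le_mul_of_nonneg_left hV1 hx0.le
      _ ≤ A * s := ha
      _ ≤ A * (s * s) := mul_le_mul_of_nonneg_left (le_mul_of_one_le_left hs0.le hs1) hAr.le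
      _ = N * A := by rw [hss]; ring
  have hNA2 : (N : ℝ) ≤ (A : ℝ) ^ 2 := by
    calc (N : ℝ) = N * 1 := (mul_one _).symm
      _ ≤ N * V ^ 4 := mul_le_mul_of_nonneg_left (hV1.trans hV14) hNr.le
      _ ≤ (A : ℝ) ^ 2 := hN2
  have hxA2N : (x : ℝ) ^ 2 ≤ (A : ℝ) ^ 2 * N := by
    calc (x : ℝ) ^ 2 = (x : ℝ) ^ 2 * 1 := (mul_one _).symm
      _ ≤ (x : ℝ) ^ 2 * V ^ 4 := mul_le_mul_of_nonneg_left (hV1.trans hV14) (by positivity)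
      _ ≤ (A : ℝ) ^ 2 * N := hN1
  have hNV : (N : ℝ) * V ^ 2 ≤ (A : ℝ) ^ 2 := (mul_le_mul_of_nonneg_left hV24 hNr.le).trans hN2
  have hc : (x : ℝ) ^ 2 * V ^ 12 ≤ (A : ℝ) ^ 3 := by
    have h1 := WFN_c x A η hxr1 hA1
    rw [← hV4] at h1
    calc (x : ℝ) ^ 2 * V ^ 12 = (x : ℝ) ^ 2 * (V ^ 4) ^ 3 := by ring
      _ ≤ (A : ℝ) ^ 3 := h1
  -- parameters
  obtain ⟨P, hP⟩ : ∃ P : ℝ, P = L ^ b₁ := ⟨_, rfl⟩
  have hP1 : 1 ≤ P := by rw [hP]; exact hp1 _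
  have hP0 : 0 < P := by linarith
  have hP2 : 2 ≤ P := by
    rw [hP]
    calc (2 : ℝ) ≤ L := hL2
      _ = L ^ 1 := (pow_one L).symm
      _ ≤ L ^ b₁ := hpow _ _ (by omega)
  obtain ⟨K₁, hK₁⟩ : ∃ K₁ : ℕ, K₁ = ⌈P⌉₊ := ⟨_, rfl⟩
  have hK₁a : P ≤ K₁ := by rw [hK₁]; exact Nat.le_ceil _
  have hK₁b : (K₁ : ℝ) ≤ 2 * P := by
    have := (Nat.ceil_lt_add_one hP0.le).le
    rw [hK₁]
    linarith
  have hK₁0 : (0 : ℝ) < K₁ := by linarith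
  have hK₁2 : 2 ≤ K₁ := by
    have : (2 : ℝ) ≤ K₁ := hP2.trans hK₁a
    exact_mod_cast this
  have hK₁r : (1 : ℝ) ≤ K₁ := by linarith
  obtain ⟨K₄, hK₄⟩ : ∃ K₄ : ℕ, K₄ = ⌈160 * (K₁ : ℝ) * (x : ℝ) ^ 2 / (A : ℝ) ^ 2⌉₊ := ⟨_, rfl⟩
  have hxA1 : (1 : ℝ) ≤ (x : ℝ) ^ 2 / (A : ℝ) ^ 2 := by
    rw [le_div_iff₀ (by positivity), one_mul]
    exact pow_le_pow_left₀ hAr.le hAxr 2
  have hK₄a : 160 * (K₁ : ℝ) * (x : ℝ) ^ 2 ≤ K₄ * (A : ℝ) ^ 2 := by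
    have h1 : 160 * (K₁ : ℝ) * (x : ℝ) ^ 2 / (A : ℝ) ^ 2 ≤ K₄ := by rw [hK₄]; exact Nat.le_ceil _
    rwa [div_le_iff₀ (by positivity)] at h1
  have hK₄b : (K₄ : ℝ) * (A : ℝ) ^ 2 ≤ 322 * P * (x : ℝ) ^ 2 := by
    have h1 := (Nat.ceil_lt_add_one (show 0 ≤ 160 * (K₁ : ℝ) * (x : ℝ) ^ 2 / (A : ℝ) ^ 2 by positivity)).le
    rw [← hK₄] at h1
    have h2 : (K₄ : ℝ) * (A : ℝ) ^ 2 ≤ (160 * (K₁ : ℝ) * (x : ℝ) ^ 2 / (A : ℝ) ^ 2 + 1) * (A : ℝ) ^ 2 :=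
      mul_le_mul_of_nonneg_right h1 (by positivity)
    have h3 : (160 * (K₁ : ℝ) * (x : ℝ) ^ 2 / (A : ℝ) ^ 2 + 1) * (A : ℝ) ^ 2 = 160 * (K₁ : ℝ) * (x : ℝ) ^ 2 + (A : ℝ) ^ 2 := by
      field_simp
    rw [h3] at h2
    have h4 : (A : ℝ) ^ 2 ≤ (x : ℝ) ^ 2 := pow_le_pow_left₀ hAr.le hAxr 2
    have h5 : (K₁ : ℝ) * (x : ℝ) ^ 2 ≤ 2 * P * (x : ℝ) ^ 2 := mul_le_mul_of_nonneg_right hK₁b (by positivity)
    have h6 : (x : ℝ) ^ 2 ≤ P * (x : ℝ) ^ 2 := by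
      have := mul_le_mul_of_nonneg_right hP1 (show 0 ≤ (x : ℝ) ^ 2 by positivity)
      linarith
    linarith
  have hK₄0 : (0 : ℝ) < K₄ := by
    by_contra hcon
    have h0 : (K₄ : ℝ) = 0 := le_antisymm (not_lt.mp hcon) (Nat.cast_nonneg _)
    rw [h0, zero_mul] at hK₄a
    have : 0 < 160 * (K₁ : ℝ) * (x : ℝ) ^ 2 := by positivity
    linarith
  have hK₄1 : 1 ≤ K₄ := by
    have : 0 < K₄ := by exact_mod_cast hK₄0
    omega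
  obtain ⟨K, hK⟩ : ∃ K : ℝ, K = (K₁ : ℝ) * K₄ := ⟨_, rfl⟩
  have hK0 : 0 < K := by rw [hK]; positivity
  have hKa : (x : ℝ) ^ 2 ≤ K * (A : ℝ) ^ 2 := by
    calc (x : ℝ) ^ 2 ≤ 1 * (160 * (K₁ : ℝ) * (x : ℝ) ^ 2) := by
          have h1 : 0 < (x : ℝ) ^ 2 := by positivity
          have h2 : 1 * (x : ℝ) ^ 2 ≤ K₁ * (x : ℝ) ^ 2 := mul_le_mul_of_nonneg_right hK₁r h1.le
          linarith
      _ ≤ K₁ * (K₄ * (A : ℝ) ^ 2) := mul_le_mul hK₁r hK₄a (by positivity) hK₁0.le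
      _ = K * (A : ℝ) ^ 2 := by rw [hK]; ring
  have hKb : K * (A : ℝ) ^ 2 ≤ 644 * P ^ 2 * (x : ℝ) ^ 2 := by
    calc K * (A : ℝ) ^ 2 = K₁ * (K₄ * (A : ℝ) ^ 2) := by rw [hK]; ring
      _ ≤ (2 * P) * (322 * P * (x : ℝ) ^ 2) := mul_le_mul hK₁b hK₄b (by positivity) (by positivity)
      _ = 644 * P ^ 2 * (x : ℝ) ^ 2 := by ring
  have hcK : 644 * P ^ 2 ≤ (x : ℝ) ^ η := by
    rw [← hV4]
    calc 644 * P ^ 2 ≤ L ^ 10 * P ^ 2 := by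
          refine mul_le_mul_of_nonneg_right ?_ (by positivity)
          calc (644 : ℝ) ≤ 2 ^ 10 := by norm_num
            _ ≤ L ^ 10 := pow_le_pow_left₀ (by norm_num) hL2 10
      _ = L ^ (10 + b₁ * 2) := by rw [hP, pow_add, pow_mul]
      _ ≤ L ^ G := hpow _ _ (by omega)
      _ ≤ V := hLG
      _ ≤ V ^ 4 := hV14
  have hKcast : ((K₁ * K₄ : ℕ) : ℝ) = K := by rw [hK]; push_cast; ring
  have hKle : ((K₁ * K₄ : ℕ) : ℝ) ≤ (x : ℝ) ^ (2 / 3 - η) := by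
    rw [hKcast]
    exact WFN_d x A K (644 * P ^ 2) η hxr1 hK0.le hA1 hKb hcK
  have hK1 : 1 ≤ K₁ * K₄ := Nat.mul_pos (by omega) (by omega)
  have hKx : K₁ * K₄ ≤ x := by
    have h1 : ((K₁ * K₄ : ℕ) : ℝ) ≤ x := by
      refine hKle.trans ?_
      calc (x : ℝ) ^ (2 / 3 - η) ≤ (x : ℝ) ^ (1 : ℝ) := Real.rpow_le_rpow_of_exponent_le hxr1 (by linarith)
        _ = x := Real.rpow_one _
    exact_mod_cast h1
  obtain ⟨R₀, hR₀⟩ : ∃ R₀ : ℕ, R₀ = ⌈L ^ E₀⌉₊ := ⟨_, rfl⟩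
  have hR₀a : L ^ E₀ ≤ R₀ := by rw [hR₀]; exact Nat.le_ceil _
  have hR₀b : (R₀ : ℝ) ≤ 2 * L ^ E₀ := by
    have h1 := (Nat.ceil_lt_add_one (show 0 ≤ L ^ E₀ by positivity)).le
    have h2 := hp1 E₀
    rw [hR₀]
    linarith
  have hR₀0 : (0 : ℝ) < R₀ := lt_of_lt_of_le (by positivity) hR₀a
  have hR₀1 : 1 ≤ R₀ := by
    have : 0 < R₀ := by exact_mod_cast hR₀0
    omega
  have hR₀c : (R₀ : ℝ) ≤ L ^ E := by
    refine hR₀b.trans ?_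
    calc 2 * L ^ E₀ ≤ L * L ^ E₀ := mul_le_mul_of_nonneg_right hL2 (by positivity)
      _ = L ^ (E₀ + 1) := by ring
      _ ≤ L ^ E := hpow _ _ (by omega)
  obtain ⟨R₁, hR₁⟩ : ∃ R₁ : ℕ, R₁ = ⌈(x : ℝ) * V ^ 2 / A⌉₊ := ⟨_, rfl⟩
  have hR₁a : (x : ℝ) * V ^ 2 / A ≤ R₁ := by rw [hR₁]; exact Nat.le_ceil _
  have hR₁c : 1 ≤ (x : ℝ) * V ^ 2 / A := by
    rw [le_div_iff₀ hAr, one_mul]
    calc (A : ℝ) ≤ x := hAxr
      _ = x * 1 := (mul_one _).symm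
      _ ≤ x * V ^ 2 := mul_le_mul_of_nonneg_left (hV1.trans hVV2) hx0.le
  have hR₁b : (R₁ : ℝ) ≤ 2 * ((x : ℝ) * V ^ 2 / A) := by
    have h1 := (Nat.ceil_lt_add_one (show 0 ≤ (x : ℝ) * V ^ 2 / A by positivity)).le
    rw [hR₁]
    linarith
  have hR₁1 : 1 ≤ R₁ := by
    have : (1 : ℝ) ≤ R₁ := hR₁c.trans hR₁a
    exact_mod_cast this
  -- D₁
  obtain ⟨D₁, hD₁⟩ : ∃ D₁ : ℕ, D₁ = 2 * N * A / x := ⟨_, rfl⟩
  have hNAn : x ≤ N * A := by exact_mod_cast hNA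
  have hD1 : 1 ≤ D₁ := by
    rw [hD₁]
    refine Nat.div_pos ?_ (by omega)
    calc x ≤ N * A := hNAn
      _ ≤ 2 * (N * A) := Nat.le_mul_of_pos_left _ (by norm_num)
      _ = 2 * N * A := by ring
  have hNA2n : N ≤ A ^ 2 := by exact_mod_cast hNA2
  have hDx : D₁ ≤ x ^ 3 := by
    rw [hD₁]
    refine Nat.div_le_of_le_mul ?_
    have h1 : N ≤ x ^ 2 := hNA2n.trans (Nat.pow_le_pow_left hAx 2)
    calc 2 * N * A ≤ 2 * x ^ 2 * x := Nat.mul_le_mul (Nat.mul_le_mul_left 2 h1) hAx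
      _ ≤ x * x ^ 2 * x := Nat.mul_le_mul_right _ (Nat.mul_le_mul_right _ hx2)
      _ = x * x ^ 3 := by ring
  have hDr : (D₁ : ℝ) ≤ 2 * N * A / x := by
    have h1 : ((2 * N * A / x : ℕ) : ℝ) ≤ ((2 * N * A : ℕ) : ℝ) / (x : ℕ) := Nat.cast_div_le
    rw [hD₁]
    refine h1.trans (le_of_eq ?_)
    push_cast
    ring
  have hlD : 1 + Real.log D₁ ≤ 4 * L := by
    have h1 : Real.log D₁ ≤ Real.log ((x : ℝ) ^ 3) := by
      refine Real.log_le_log (by exact_mod_cast hD1) ?_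
      exact_mod_cast hDx
    rw [Real.log_pow] at h1
    push_cast at h1
    rw [← hL] at h1
    linarith
  have hlD0 : 0 ≤ 1 + Real.log D₁ := by
    have : 0 ≤ Real.log D₁ := Real.log_nonneg (by exact_mod_cast hD1)
    linarith
  -- the decomposition
  have hSiz : Siz x N R A := by
    refine ⟨hx1, hN, hR, hA0, hAx, hR1, hR2.trans (Nat.mul_le_mul_right _ (by norm_num)), ?_, hNA2n⟩
    exact_mod_cast hxA2N
  have hZ2 : 2 ≤ Z := by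
    have h1 : (2 : ℝ) ≤ Z := by
      refine le_trans ?_ hZ
      refine hL2.trans ?_
      calc L = L ^ 1 := (pow_one L).symm
        _ ≤ L ^ E := hpow _ _ (by omega)
    exact_mod_cast h1
  have hK₄n : 160 * K₁ * x ^ 2 ≤ K₄ * A ^ 2 := by exact_mod_cast hK₄a
  have hmain := hW om hom x Z N R A K₁ K₁ K₄ hSiz hZ2 (by omega) hK₁2 hK₄1 hK₄n (2 * L) (3 * L) lam β hlam hβ
  -- small conductors
  have hSIK := hSI (K₁ * K₄) hK1 hKle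
  have hSI' : SIh x (K₁ * K₄) R₀ ((x : ℝ) ^ 2 / (((K₁ * K₄ : ℕ) : ℝ) * L ^ E)) lam := by
    intro q' k hq1 hq2 hk1 hk2 ψ hψ
    exact hSIK q' k hq1 (hq2.trans hR₀c) hk1 hk2 ψ hψ
  have hM1 := hM x (K₁ * K₄) D₁ R₀ R₁ hx1 hK1 hKx hD1 hDx hR₀1 (2 * L) _ lam hlam.1 hSI'
  rw [hKcast] at hM1
  have hS1 := hS om x N A K₁ K₁ K₄ R₁ hx1 hN (by omega) hK₄1 lam
  rw [← hD₁, ← hK] at hS1
  have hS2 := hS1.trans (mul_le_mul_of_nonneg_left hM1 (by positivity))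
  have hS3 := hS2.trans (WFN_p2 N A x L P V K R₀ R₁ (1 + Real.log D₁) (L ^ E) (L ^ E₀) C₂ C₄ hNr hAr hx0 hL1 hP1 hV1
    (by positivity) (by positivity) hK0 hC₂ hC₄ hKa hKb hR₀a hR₀b (Nat.cast_nonneg _) hR₁b hlD hlD0 hc)
  -- large conductors
  have hQ6 := hQ5 x K₁ K₄ D₁ R₁ hx1 (by omega) hK₄1 hD1 hR₁1 (2 * L) lam hlam.1
  rw [← hL, ← hK] at hQ6
  have hG1 := hG om hom x N A K₁ K₁ K₄ R₁ hx1 hN hAx (by omega) hK₄1 lam
  rw [← hD₁, ← hK] at hG1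
  have hG2 : C₃ * √(N * (N * A / x + 1) * (1 + (A : ℝ) ^ 2 * K / x ^ 2)) *
      √(K₁ * ∑ D ∈ Icc 1 D₁, 1 / (Nat.totient D : ℝ) * ∑ χ : DirichletCharacter ℂ D with R₁ < χ.conductor,
          ∑ b ∈ range K₁, ∑ j ∈ range (2 * (K₁ * K₄)), ‖Hc x K₁ K₄ lam b j χ‖ ^ 2) ≤
      C₃ * (2816 * (1 + C₅) * (P ^ 2 * L ^ 4 * (N * A ^ 2) / V)) := by
    rw [mul_assoc]
    refine mul_le_mul_of_nonneg_left ?_ hC₃.le
    refine le_trans (mul_le_mul_of_nonneg_left (Real.sqrt_le_sqrt (mul_le_mul_of_nonneg_left hQ6 hK₁0.le)) (Real.sqrt_nonneg _)) ?_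
    exact WFN_p3 N A x L P V K K₁ R₁ (1 + Real.log D₁) D₁ C₅ hNr hAr hx0 hL1 hP1 hV1 hK0 hK₁0 hC₅ hKa hKb hK₁b hR₁a hlD hlD0
      hNA hDr (Nat.cast_nonneg _) hNV
  have hG3 := hG1.trans hG2
  -- the sum of the absolute values
  have hsum : ∑ p ∈ Pr x N A K₁, ∑ b ∈ range K₁, ∑ m ∈ Mz x (K₁ * K₄) A p.1 p.2, ∑ e ∈ ({1, 2} : Finset ℕ),
        |Eg x K₁ K₄ lam b m (e * (dl p.1 p.2).natAbs) (om e p.1 p.2)| ≤
      (∑ p ∈ Pr x N A K₁, ∑ b ∈ range K₁, ∑ m ∈ Mz x (K₁ * K₄) A p.1 p.2, ∑ e ∈ ({1, 2} : Finset ℕ),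
        EgS x K₁ K₄ R₁ lam b m (e * (dl p.1 p.2).natAbs) (om e p.1 p.2)) +
      ∑ p ∈ Pr x N A K₁, ∑ b ∈ range K₁, ∑ m ∈ Mz x (K₁ * K₄) A p.1 p.2, ∑ e ∈ ({1, 2} : Finset ℕ),
        EgL x K₁ K₄ R₁ lam b m (e * (dl p.1 p.2).natAbs) (om e p.1 p.2) := by
    rw [← Finset.sum_add_distrib]
    refine Finset.sum_le_sum fun p hp => ?_
    rw [← Finset.sum_add_distrib]
    refine Finset.sum_le_sum fun b _ => ?_
    rw [← Finset.sum_add_distrib]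
    refine Finset.sum_le_sum fun m _ => ?_
    rw [← Finset.sum_add_distrib]
    refine Finset.sum_le_sum fun e he => ?_
    have he' : e = 1 ∨ e = 2 := by simpa using he
    obtain ⟨h1, h2⟩ := WFN_cop om hom x N A K₁ p hp e he'
    exact hCHX x K₁ K₄ R₁ lam b m _ _ h1 h2
  have hsum2 := hsum.trans (add_le_add hS3 hG3)
  have hp1' := WFN_p1 N A x s L P V K₁ K₁ Z (L ^ E) hNr hAr hx0 hL1 hP0 hV0 (by positivity) hs1 hss ha hb hK₁a hK₁a hZ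
  rw [hs] at hp1'
  have hT0 : (0 : ℝ) < N * A ^ 2 := by positivity
  have hfin : WW N R A β lam ≤ C₁ * (3 * L) ^ 2 * ((2 * L) ^ 2 * ((N * A ^ 2) * (2 / P + 2 / V + 2 * L * (1 / L ^ E + 2 / V))) +
      (C₂ * C₄ * (N * A ^ 2) * (2580 * P ^ 2 * L) * (2 * L ^ E₀ / L ^ E + 4 * L ^ 2 / L ^ E₀ + 8 * L ^ 2 / V) +
        C₃ * (2816 * (1 + C₅) * (P ^ 2 * L ^ 4 * (N * A ^ 2) / V)))) := by
    refine hmain.trans (mul_le_mul_of_nonneg_left ?_ (by positivity))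
    exact add_le_add (mul_le_mul_of_nonneg_left hp1' (by positivity)) hsum2
  have hend := WFN_end L P V (N * A ^ 2) (L ^ E) (L ^ E₀) C₁ C₂ C₃ C₄ C₅ (1 / L ^ (B + 1)) B b₁ E₀ E G hb₁ hE₀ hE hG' hL1 hP rfl rfl
    hLG hT0 hC₁ hC₂ hC₃ hC₄ hC₅ rfl
  refine (hfin.trans hend).trans ?_
  rw [← hQ]
  have g5 : Q * (1 / L ^ (B + 1)) ≤ 1 / L ^ B := by
    rw [mul_one_div, div_le_div_iff₀ (by positivity) (by positivity), one_mul, pow_succ]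
    have h1 : 0 < L ^ B := by positivity
    calc Q * L ^ B ≤ L * L ^ B := mul_le_mul_of_nonneg_right hLQ h1.le
      _ = L ^ B * L := mul_comm _ _
  calc Q * (1 / L ^ (B + 1)) * (N * A ^ 2) ≤ 1 / L ^ B * (N * A ^ 2) := mul_le_mul_of_nonneg_right g5 hT0.le
    _ = N * A ^ 2 / L ^ B := by ring

end Pool.Agent.FJ
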